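import Mathlib
import Pool.Graph.R_seed8.Helper189.S3Amalg

/-! Every compact group covered by the conjugates of a continuous image of the circle
(so the circle, `SU(2)` and `SO(3)`) is an amalgamation base for compact groups. -/

set_option autoImplicit false
open scoped Manifold ContDiff Matrix

namespace Pool.Agent.Results.MP_f8bbe3_al.RankOne

open Pool.Agent.Helper771.Circ Pool.Agent.Helper189.CharEq Pool.Agent.Helper189.UnitQuat

/-- The amalgamation property of the problem: whenever `A` is embedded in two compact groups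
`B` and `C`, these embed in a compact group `D` by embeddings that agree on `A`. -/
def Amalg (A : Type) [Group A] [TopologicalSpace A] : Prop :=
  ∀ (B C : Type) [Group B] [TopologicalSpace B] [IsTopologicalGroup B]
    [CompactSpace B] [T2Space B]
    [Group C] [TopologicalSpace C] [IsTopologicalGroup C]
    [CompactSpace C] [T2Space C]
    (f : ContinuousMonoidHom A B) (g : ContinuousMonoidHom A C),
    Function.Injective f → Function.Injective g →
    ∃ (D : Type) (_ : Group D) (_ : TopologicalSpace D) (_ : IsTopologicalGroup D)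
      (_ : CompactSpace D) (_ : T2Space D)
      (h : ContinuousMonoidHom B D) (k : ContinuousMonoidHom C D),
      Function.Injective h ∧ Function.Injective k ∧ ∀ a : A, h (f a) = k (g a)

/-- the group `SO(3)` -/
abbrev SO3 : Type := Matrix.specialOrthogonalGroup (Fin 3) ℝ

/-! ### making the circle embedded -/

theorem exists_inj {A : Type} [Group A] [TopologicalSpace A] [T2Space A]
    (ι : Circle →* A) (hι : Continuous ι) (hnt : ∃ z, ι z ≠ 1) :
    ∃ ι' : Circle →* A, Continuous ι' ∧ Function.Injective ι' ∧ ∀ z, ∃ w, ι z = ι' w := by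
  have hexp : ∀ z : Circle, ∃ t : ℝ, Circle.exp t = z := fun z => ⟨Complex.arg z, Circle.exp_arg z⟩
  let K : AddSubgroup ℝ :=
    { carrier := {t | ι (Circle.exp t) = 1}
      add_mem' := by
        intro s t hs ht
        simp only [Set.mem_ofPred_eq] at *
        rw [Circle.exp_add, map_mul, hs, ht, one_mul]
      zero_mem' := by simp
      neg_mem' := by
        intro t ht
        simp only [Set.mem_ofPred_eq] at *
        rw [Circle.exp_neg, map_inv, ht, inv_one] }
  have hKmem : ∀ t : ℝ, t ∈ K ↔ ι (Circle.exp t) = 1 := fun t => Iff.rfl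
  have hKcl : IsClosed (K : Set ℝ) := by
    have : Continuous fun t : ℝ => ι (Circle.exp t) := hι.comp Circle.exp.continuous
    exact isClosed_eq this continuous_const
  have hpi : (2 * Real.pi) ∈ K := by
    rw [hKmem, Circle.exp_two_pi, map_one]
  rcases AddSubgroup.dense_or_cyclic K with hd | ⟨a, ha⟩
  · exfalso
    obtain ⟨z, hz⟩ := hnt
    obtain ⟨t, rfl⟩ := hexp z
    apply hz
    have h1 : (K : Set ℝ) = Set.univ := by rw [← hKcl.closure_eq]; exact hd.closure_eq
    have h2 : t ∈ (K : Set ℝ) := by rw [h1]; trivial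
    exact h2
  · have hz : ∀ t, t ∈ K ↔ ∃ k : ℤ, k • a = t := by
      intro t
      rw [ha, AddSubgroup.mem_closure_singleton]
    have ha0 : a ≠ 0 := by
      rintro rfl
      obtain ⟨k, hk⟩ := (hz _).mp hpi
      rw [smul_zero] at hk
      have := Real.pi_pos
      linarith
    have hp0 : (2 * Real.pi) ≠ 0 := by have := Real.pi_pos; positivity
    let φ : ℝ → A := fun t => ι (Circle.exp (a / (2 * Real.pi) * t))
    have hφc : Continuous φ := hι.comp (Circle.exp.continuous.comp (continuous_const.mul continuous_id))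
    have hφa : ∀ s t, φ (s + t) = φ s * φ t := by
      intro s t
      simp only [φ]
      rw [mul_add, Circle.exp_add, map_mul]
    have hφ1 : ∀ t, φ t = 1 ↔ Circle.exp t = 1 := by
      intro t
      have e1 : φ t = 1 ↔ (a / (2 * Real.pi) * t) ∈ K := Iff.rfl
      rw [e1, hz, Circle.exp_eq_one]
      constructor
      · rintro ⟨k, hk⟩
        refine ⟨k, ?_⟩
        rw [zsmul_eq_mul] at hk
        field_simp at hk
        linarith
      · rintro ⟨k, hk⟩
        refine ⟨k, ?_⟩
        rw [zsmul_eq_mul, hk]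
        field_simp
    have hφn : ∀ t, φ (-t) = (φ t)⁻¹ := by
      intro t
      rw [eq_inv_iff_mul_eq_one, ← hφa, neg_add_cancel]
      simp [φ]
    have hφe : ∀ s t, Circle.exp s = Circle.exp t → φ s = φ t := by
      intro s t h
      have h1 : φ (s + -t) = 1 := by
        rw [hφ1, Circle.exp_add, Circle.exp_neg, h, mul_inv_cancel]
      rw [hφa, hφn, mul_inv_eq_one] at h1
      exact h1
    let ι' : Circle →* A :=
      { toFun := fun z => φ (Complex.arg z)
        map_one' := by
          simp [φ]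
        map_mul' := by
          intro z w
          show φ _ = φ _ * φ _
          rw [← hφa]
          apply hφe
          rw [Circle.exp_arg, Circle.exp_add, Circle.exp_arg, Circle.exp_arg] }
    have hι' : ∀ t, ι' (Circle.exp t) = φ t := by
      intro t
      show φ _ = φ t
      apply hφe
      rw [Circle.exp_arg]
    refine ⟨ι', ?_, ?_, ?_⟩
    · have hq : Topology.IsQuotientMap Circle.exp :=
        isLocalHomeomorph_circleExp.isOpenMap.isQuotientMap Circle.exp.continuous hexp
      rw [hq.continuous_iff]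
      have : (ι' ∘ Circle.exp) = φ := funext hι'
      rw [this]
      exact hφc
    · rw [injective_iff_map_eq_one]
      intro z h
      obtain ⟨t, rfl⟩ := hexp z
      rw [hι'] at h
      exact (hφ1 t).mp h
    · intro z
      obtain ⟨t, rfl⟩ := hexp z
      refine ⟨Circle.exp (2 * Real.pi / a * t), ?_⟩
      rw [hι']
      simp only [φ]
      congr 2
      field_simp

/-! ### the amalgamation -/

theorem keyA {A : Type} [Group A] [TopologicalSpace A] [IsTopologicalGroup A] [CompactSpace A]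
    [T2Space A] (ι : Circle →* A) (hι : Continuous ι) (hιi : Function.Injective ι)
    (hcov : ∀ a : A, ∃ (p : A) (z : Circle), a = p * ι z * p⁻¹)
    (B C : Type) [Group B] [TopologicalSpace B] [IsTopologicalGroup B] [CompactSpace B]
    [T2Space B] [Group C] [TopologicalSpace C] [IsTopologicalGroup C] [CompactSpace C]
    [T2Space C] (f : A →* B) (g : A →* C) (hf : Continuous f)
    (hfi : Function.Injective f) (hg : Continuous g) (hgi : Function.Injective g)
    (b : B) (hb : b ≠ 1) :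
    ∃ (N : ℕ) (ρ : B →* Matrix.unitaryGroup (Fin N) ℂ) (σ : C →* Matrix.unitaryGroup (Fin N) ℂ),
      Continuous ρ ∧ Continuous σ ∧ (∀ a, ρ (f a) = σ (g a)) ∧ ρ b ≠ 1 := by
  obtain ⟨N, ρ, σ, hρ, hσ, heq, hne⟩ := key B C (f.comp ι) (g.comp ι)
    (hf.comp hι) (hfi.comp hιi) (hg.comp hι)
    (hgi.comp hιi) b hb
  obtain ⟨w, hw⟩ := conj_of_char_eq (ρ.comp f) (σ.comp g) (hρ.comp hf) (hσ.comp hg) (by
    intro a
    obtain ⟨p, z, rfl⟩ := hcov a
    rw [trace_conj, trace_conj]
    have := heq z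
    simp only [MonoidHom.comp_apply] at this ⊢
    rw [this])
  refine ⟨N, (MulAut.conj w).toMonoidHom.comp ρ, σ, ?_, hσ, ?_, ?_⟩
  · show Continuous (fun b => w * ρ b * w⁻¹)
    exact (continuous_const.mul hρ).mul continuous_const
  · intro a
    show w * ρ (f a) * w⁻¹ = σ (g a)
    exact (hw a).symm
  · intro h
    apply hne
    have h1 : w * ρ b * w⁻¹ = 1 := h
    have : ρ b = w⁻¹ * (w * ρ b * w⁻¹) * w := by group
    rw [this, h1]; group

theorem amalg_of_inj {A : Type} [Group A] [TopologicalSpace A] [IsTopologicalGroup A]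
    [CompactSpace A] [T2Space A] (ι : Circle →* A) (hι : Continuous ι)
    (hιi : Function.Injective ι)
    (hcov : ∀ a : A, ∃ (p : A) (z : Circle), a = p * ι z * p⁻¹) : Amalg A := by
  intro B C _ _ _ _ _ _ _ _ _ _ f g hfi hgi
  choose N₁ ρ₁ σ₁ hρ₁ hσ₁ heq₁ hne₁ using
    fun b : {b : B // b ≠ 1} => keyA ι hι hιi hcov B C f.toMonoidHom g.toMonoidHom
      f.continuous_toFun hfi g.continuous_toFun hgi b.1 b.2
  choose N₂ σ₂ ρ₂ hσ₂ hρ₂ heq₂ hne₂ using
    fun c : {c : C // c ≠ 1} => keyA ι hι hιi hcov C B g.toMonoidHom f.toMonoidHom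
      g.continuous_toFun hgi f.continuous_toFun hfi c.1 c.2
  refine ⟨(∀ b : {b : B // b ≠ 1}, Matrix.unitaryGroup (Fin (N₁ b)) ℂ)
    × (∀ c : {c : C // c ≠ 1}, Matrix.unitaryGroup (Fin (N₂ c)) ℂ), inferInstance, inferInstance,
    inferInstance, inferInstance, inferInstance,
    ⟨(MonoidHom.prod (MonoidHom.pi ρ₁) (MonoidHom.pi ρ₂)), ?_⟩,
    ⟨(MonoidHom.prod (MonoidHom.pi σ₁) (MonoidHom.pi σ₂)), ?_⟩, ?_, ?_, ?_⟩
  · exact (continuous_pi hρ₁).prodMk (continuous_pi hρ₂)
  · exact (continuous_pi hσ₁).prodMk (continuous_pi hσ₂)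
  · show Function.Injective (MonoidHom.prod (MonoidHom.pi ρ₁) (MonoidHom.pi ρ₂))
    rw [injective_iff_map_eq_one]
    intro b hb
    by_contra hne
    have h1 := congrFun (congrArg Prod.fst hb) ⟨b, hne⟩
    exact hne₁ ⟨b, hne⟩ h1
  · show Function.Injective (MonoidHom.prod (MonoidHom.pi σ₁) (MonoidHom.pi σ₂))
    rw [injective_iff_map_eq_one]
    intro c hc
    by_contra hne
    have h1 := congrFun (congrArg Prod.snd hc) ⟨c, hne⟩
    exact hne₂ ⟨c, hne⟩ h1
  · intro z
    refine Prod.ext ?_ ?_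
    · funext b
      exact heq₁ b z
    · funext c
      exact (heq₂ c z).symm

theorem amalg_of_trivial {A : Type} [Group A] [TopologicalSpace A] (h1 : ∀ a : A, a = 1) :
    Amalg A := by
  intro B C _ _ _ _ _ _ _ _ _ _ f g _ _
  refine ⟨B × C, inferInstance, inferInstance, inferInstance, inferInstance, inferInstance,
    ⟨MonoidHom.inl B C, ?_⟩, ⟨MonoidHom.inr B C, ?_⟩, ?_, ?_, ?_⟩
  · exact continuous_id.prodMk continuous_const
  · exact continuous_const.prodMk continuous_id
  · intro x y h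
    exact congrArg Prod.fst h
  · intro x y h
    exact congrArg Prod.snd h
  · intro a
    rw [h1 a, map_one, map_one, map_one, map_one]

theorem amalg_of_cover {A : Type} [Group A] [TopologicalSpace A] [IsTopologicalGroup A]
    [CompactSpace A] [T2Space A] (ι : Circle →* A) (hι : Continuous ι)
    (hcov : ∀ a : A, ∃ (p : A) (z : Circle), a = p * ι z * p⁻¹) : Amalg A := by
  by_cases hnt : ∃ z, ι z ≠ 1
  · obtain ⟨ι', hι', hinj, hfac⟩ := exists_inj ι hι hnt
    refine amalg_of_inj ι' hι' hinj ?_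
    intro a
    obtain ⟨p, z, rfl⟩ := hcov a
    obtain ⟨w, hw⟩ := hfac z
    exact ⟨p, w, by rw [hw]⟩
  · push Not at hnt
    apply amalg_of_trivial
    intro a
    obtain ⟨p, z, rfl⟩ := hcov a
    rw [hnt z]; group

/-! ### the rotation group -/

theorem mem_so3 {M : Matrix (Fin 3) (Fin 3) ℝ} :
    M ∈ Matrix.specialOrthogonalGroup (Fin 3) ℝ ↔ M * Mᵀ = 1 ∧ M.det = 1 := by
  rw [Matrix.mem_specialOrthogonalGroup_iff, Matrix.mem_orthogonalGroup_iff]

theorem mem_so3' {M : Matrix (Fin 3) (Fin 3) ℝ} :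
    M ∈ Matrix.specialOrthogonalGroup (Fin 3) ℝ ↔ Mᵀ * M = 1 ∧ M.det = 1 := by
  rw [Matrix.mem_specialOrthogonalGroup_iff, Matrix.mem_orthogonalGroup_iff']

/-- rotation about the third axis -/
noncomputable def rotM (x y : ℝ) : Matrix (Fin 3) (Fin 3) ℝ := !![x, -y, 0; y, x, 0; 0, 0, 1]

theorem rotM_mem {x y : ℝ} (h : x ^ 2 + y ^ 2 = 1) :
    rotM x y ∈ Matrix.specialOrthogonalGroup (Fin 3) ℝ := by
  rw [mem_so3]
  constructor
  · ext i j
    fin_cases i <;> fin_cases j <;>
      simp [rotM, Matrix.mul_apply, Fin.sum_univ_three] <;> nlinarith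
  · simp [rotM, Matrix.det_fin_three]; nlinarith

noncomputable def rot : Circle →* SO3 where
  toFun z := ⟨rotM (z : ℂ).re (z : ℂ).im, rotM_mem (by
    have h1 : Complex.normSq (z : ℂ) = 1 := Circle.normSq_coe z
    rw [Complex.normSq_apply] at h1
    nlinarith)⟩
  map_one' := by
    apply Subtype.ext
    ext i j
    fin_cases i <;> fin_cases j <;> simp [rotM]
  map_mul' z w := by
    apply Subtype.ext
    ext i j
    fin_cases i <;> fin_cases j <;>
      simp [rotM, Matrix.mul_apply, Fin.sum_univ_three] <;> ring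

theorem continuous_rot : Continuous rot := by
  refine Continuous.subtype_mk ?_ _
  refine continuous_matrix ?_
  intro i j
  have h1 : Continuous fun z : Circle => (z : ℂ).re := Complex.continuous_re.comp continuous_subtype_val
  have h2 : Continuous fun z : Circle => (z : ℂ).im := Complex.continuous_im.comp continuous_subtype_val
  fin_cases i <;> fin_cases j <;> simp [rotM] <;> fun_prop

theorem exists_perp (a b c : ℝ) :
    ∃ x y z : ℝ, x ^ 2 + y ^ 2 + z ^ 2 = 1 ∧ a * x + b * y + c * z = 0 := by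
  by_cases hab : a ^ 2 + b ^ 2 = 0
  · have ha : a = 0 := by nlinarith [sq_nonneg a, sq_nonneg b]
    exact ⟨1, 0, 0, by norm_num, by rw [ha]; ring⟩
  · have hpos : 0 < a ^ 2 + b ^ 2 := lt_of_le_of_ne (by positivity) (Ne.symm hab)
    set s := Real.sqrt (a ^ 2 + b ^ 2) with hs
    have hs2 : s ^ 2 = a ^ 2 + b ^ 2 := Real.sq_sqrt hpos.le
    have hs0 : s ≠ 0 := (Real.sqrt_pos.mpr hpos).ne'
    refine ⟨-b / s, a / s, 0, ?_, ?_⟩
    · field_simp
      linarith
    · field_simp
      ring

/-- a fixed unit vector of a rotation of three-space -/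
theorem exists_axis {M : Matrix (Fin 3) (Fin 3) ℝ} (h1 : M * Mᵀ = 1) (h2 : M.det = 1) :
    ∃ u : Fin 3 → ℝ, u 0 ^ 2 + u 1 ^ 2 + u 2 ^ 2 = 1 ∧ M *ᵥ u = u := by
  have hdet : (M - 1).det = 0 := by
    have e1 : M - 1 = M * (1 - Mᵀ) := by rw [Matrix.mul_sub, Matrix.mul_one, h1]
    have e2 : (1 - Mᵀ) = (1 - M)ᵀ := by rw [Matrix.transpose_sub, Matrix.transpose_one]
    have e3 : (M - 1).det = (1 - M).det := by
      conv_lhs => rw [e1, Matrix.det_mul, h2, one_mul, e2, Matrix.det_transpose]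
    have e4 : (1 - M) = -(M - 1) := by abel
    rw [e4, Matrix.det_neg, Fintype.card_fin] at e3
    linarith
  obtain ⟨v, hv0, hv⟩ := Matrix.exists_mulVec_eq_zero_iff.mpr hdet
  have hMv : M *ᵥ v = v := by
    rw [Matrix.sub_mulVec, Matrix.one_mulVec] at hv
    exact sub_eq_zero.mp hv
  have hpos : 0 < v 0 ^ 2 + v 1 ^ 2 + v 2 ^ 2 := by
    by_contra hle
    push Not at hle
    apply hv0
    funext i
    fin_cases i
    · show v 0 = 0
      nlinarith [sq_nonneg (v 0), sq_nonneg (v 1), sq_nonneg (v 2)]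
    · show v 1 = 0
      nlinarith [sq_nonneg (v 0), sq_nonneg (v 1), sq_nonneg (v 2)]
    · show v 2 = 0
      nlinarith [sq_nonneg (v 0), sq_nonneg (v 1), sq_nonneg (v 2)]
  set s := Real.sqrt (v 0 ^ 2 + v 1 ^ 2 + v 2 ^ 2) with hs
  have hs2 : s ^ 2 = v 0 ^ 2 + v 1 ^ 2 + v 2 ^ 2 := Real.sq_sqrt hpos.le
  have hs0 : s ≠ 0 := (Real.sqrt_pos.mpr hpos).ne'
  refine ⟨s⁻¹ • v, ?_, ?_⟩
  · simp only [Pi.smul_apply, smul_eq_mul]
    field_simp
    linarith
  · rw [Matrix.mulVec_smul, hMv]

theorem exists_frame (u : Fin 3 → ℝ) (hu : u 0 ^ 2 + u 1 ^ 2 + u 2 ^ 2 = 1) :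
    ∃ p : SO3, ∀ i, (p : Matrix (Fin 3) (Fin 3) ℝ) i 2 = u i := by
  obtain ⟨x, y, z, hx, hxu⟩ := exists_perp (u 0) (u 1) (u 2)
  refine ⟨⟨!![x, u 1 * z - u 2 * y, u 0; y, u 2 * x - u 0 * z, u 1;
    z, u 0 * y - u 1 * x, u 2], ?_⟩, ?_⟩
  · rw [mem_so3']
    have hc : (u 1 * z - u 2 * y) ^ 2 + (u 2 * x - u 0 * z) ^ 2 + (u 0 * y - u 1 * x) ^ 2 = 1 := by
      have : (u 1 * z - u 2 * y) ^ 2 + (u 2 * x - u 0 * z) ^ 2 + (u 0 * y - u 1 * x) ^ 2
        = (u 0 ^ 2 + u 1 ^ 2 + u 2 ^ 2) * (x ^ 2 + y ^ 2 + z ^ 2)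
          - (u 0 * x + u 1 * y + u 2 * z) ^ 2 := by ring
      rw [this, hu, hx, hxu]; norm_num
    constructor
    · ext i j
      fin_cases i <;> fin_cases j <;>
        simp [Matrix.mul_apply, Fin.sum_univ_three] <;> nlinarith
    · rw [Matrix.det_fin_three]
      simp
      nlinarith
  · intro i
    fin_cases i <;> simp

theorem rot_of_fix (n : SO3) (hn : ∀ i, (n : Matrix (Fin 3) (Fin 3) ℝ) i 2 = if i = 2 then 1 else 0) :
    ∃ z : Circle, n = rot z := by
  obtain ⟨N, hN⟩ := n
  obtain ⟨h1, h2⟩ := mem_so3.mp hN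
  obtain ⟨h3, -⟩ := mem_so3'.mp hN
  have n02 : N 0 2 = 0 := by simpa using hn 0
  have n12 : N 1 2 = 0 := by simpa using hn 1
  have n22 : N 2 2 = 1 := by simpa using hn 2
  have r22 : N 2 0 ^ 2 + N 2 1 ^ 2 + N 2 2 ^ 2 = 1 := by
    have := congrFun (congrFun h1 2) 2
    simp [Matrix.mul_apply, Fin.sum_univ_three] at this
    nlinarith
  have n20 : N 2 0 = 0 := by rw [n22] at r22; nlinarith [sq_nonneg (N 2 0), sq_nonneg (N 2 1)]
  have n21 : N 2 1 = 0 := by rw [n22] at r22; nlinarith [sq_nonneg (N 2 0), sq_nonneg (N 2 1)]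
  have c00 : N 0 0 ^ 2 + N 1 0 ^ 2 = 1 := by
    have := congrFun (congrFun h3 0) 0
    simp [Matrix.mul_apply, Fin.sum_univ_three, n20] at this
    nlinarith
  have c01 : N 0 0 * N 0 1 + N 1 0 * N 1 1 = 0 := by
    have := congrFun (congrFun h3 0) 1
    simp [Matrix.mul_apply, Fin.sum_univ_three, n20, n21] at this
    nlinarith
  have d : N 0 0 * N 1 1 - N 0 1 * N 1 0 = 1 := by
    rw [Matrix.det_fin_three] at h2
    simp only [n02, n12, n22, n20, n21] at h2
    linarith
  have e1 : N 1 1 = N 0 0 := by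
    linear_combination (N 0 0) * d - (N 1 1) * c00 + (N 1 0) * c01
  have e2 : N 0 1 = - N 1 0 := by
    linear_combination (N 0 0) * c01 - (N 1 0) * d - (N 0 1) * c00
  refine ⟨⟨⟨N 0 0, N 1 0⟩, ?_⟩, ?_⟩
  · show (⟨N 0 0, N 1 0⟩ : ℂ) ∈ Metric.sphere (0 : ℂ) 1
    rw [mem_sphere_zero_iff_norm]
    have h5 : ‖(⟨N 0 0, N 1 0⟩ : ℂ)‖ * ‖(⟨N 0 0, N 1 0⟩ : ℂ)‖ = 1 := by
      rw [Complex.norm_mul_self_eq_normSq, Complex.normSq_mk]
      nlinarith
    nlinarith [norm_nonneg (⟨N 0 0, N 1 0⟩ : ℂ)]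
  · apply Subtype.ext
    show N = rotM (N 0 0) (N 1 0)
    ext i j
    fin_cases i <;> fin_cases j <;> simp [rotM, n02, n12, n22, n20, n21, e1, e2]

theorem so3_cover (a : SO3) : ∃ (p : SO3) (z : Circle), a = p * rot z * p⁻¹ := by
  obtain ⟨h1, h2⟩ := mem_so3.mp a.2
  obtain ⟨u, hu, hau⟩ := exists_axis h1 h2
  obtain ⟨p, hp⟩ := exists_frame u hu
  have hpu : (p : Matrix (Fin 3) (Fin 3) ℝ) *ᵥ (Pi.single 2 1) = u := by
    funext i
    rw [Matrix.mulVec_single_one]
    exact hp i
  obtain ⟨z, hz⟩ := rot_of_fix (p⁻¹ * a * p) (by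
    intro i
    have e1 : ((p⁻¹ * a * p : SO3) : Matrix (Fin 3) (Fin 3) ℝ) *ᵥ (Pi.single 2 1)
        = Pi.single 2 1 := by
      have c1 : ((p⁻¹ * a * p : SO3) : Matrix (Fin 3) (Fin 3) ℝ)
          = ((p⁻¹ : SO3) : Matrix (Fin 3) (Fin 3) ℝ) * (a : Matrix (Fin 3) (Fin 3) ℝ)
            * (p : Matrix (Fin 3) (Fin 3) ℝ) := rfl
      have c2 : ((p⁻¹ : SO3) : Matrix (Fin 3) (Fin 3) ℝ) * (p : Matrix (Fin 3) (Fin 3) ℝ) = 1 := by
        have := inv_mul_cancel p
        exact congrArg Subtype.val this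
      rw [c1, ← Matrix.mulVec_mulVec, ← Matrix.mulVec_mulVec, hpu, hau, ← hpu,
        Matrix.mulVec_mulVec, c2, Matrix.one_mulVec]
    have e2 := congrFun e1 i
    rw [Matrix.mulVec_single_one] at e2
    have e3 : ((p⁻¹ * a * p : SO3) : Matrix (Fin 3) (Fin 3) ℝ) i 2 = (Pi.single 2 1 : Fin 3 → ℝ) i := e2
    rw [e3, Pi.single_apply])
  refine ⟨p, z, ?_⟩
  rw [← hz]; group

instance : IsTopologicalGroup SO3 where
  continuous_mul := by
    refine Continuous.subtype_mk ?_ _
    exact (continuous_subtype_val.comp continuous_fst).matrix_mul (continuous_subtype_val.comp continuous_snd)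
  continuous_inv := by
    refine Continuous.subtype_mk ?_ _
    exact continuous_subtype_val.matrix_conjTranspose

instance : CompactSpace SO3 := by
  apply isCompact_iff_compactSpace.mp
  have hsub : (Matrix.specialOrthogonalGroup (Fin 3) ℝ : Set (Matrix (Fin 3) (Fin 3) ℝ))
      ⊆ Set.pi Set.univ (fun _ => Set.pi Set.univ (fun _ => Metric.closedBall (0 : ℝ) 1)) := by
    intro A hA i _ j _
    rw [mem_closedBall_zero_iff]
    have h1 : A ∈ Matrix.unitaryGroup (Fin 3) ℝ := hA.1
    exact entry_norm_bound_of_unitary h1 i j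
  have hcomp : IsCompact (Set.pi Set.univ (fun _ : Fin 3 => Set.pi Set.univ
      (fun _ : Fin 3 => Metric.closedBall (0 : ℝ) 1))) :=
    isCompact_univ_pi fun _ => isCompact_univ_pi fun _ => isCompact_closedBall _ _
  refine hcomp.of_isClosed_subset ?_ hsub
  have : (Matrix.specialOrthogonalGroup (Fin 3) ℝ : Set (Matrix (Fin 3) (Fin 3) ℝ))
      = {M | M * Mᵀ = 1} ∩ {M | M.det = 1} := by
    ext M
    exact mem_so3
  rw [this]
  exact (isClosed_eq (by fun_prop) continuous_const).inter (isClosed_eq (by fun_prop) continuous_const)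


theorem so3_nonabelian : ∃ x y : SO3, x * y ≠ y * x := by
  refine ⟨⟨!![0, -1, 0; 1, 0, 0; 0, 0, 1], ?_⟩, ⟨!![1, 0, 0; 0, 0, -1; 0, 1, 0], ?_⟩, ?_⟩
  · rw [mem_so3]
    constructor
    · ext i j
      fin_cases i <;> fin_cases j <;> simp [Matrix.mul_apply, Fin.sum_univ_three]
    · simp [Matrix.det_fin_three]
  · rw [mem_so3]
    constructor
    · ext i j
      fin_cases i <;> fin_cases j <;> simp [Matrix.mul_apply, Fin.sum_univ_three]
    · simp [Matrix.det_fin_three]
  · intro h
    have h1 := congrFun (congrFun (congrArg Subtype.val h) 0) 1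
    simp [Matrix.mul_apply, Fin.sum_univ_three] at h1

/-- a group covered by the conjugates of a continuous image of the circle is connected -/
theorem connected_of_cover {A : Type} [Group A] [TopologicalSpace A] [IsTopologicalGroup A]
    (ι : Circle →* A) (hι : Continuous ι)
    (hcov : ∀ a : A, ∃ (p : A) (z : Circle), a = p * ι z * p⁻¹) : ConnectedSpace A := by
  have : IsPreconnected (Set.univ : Set A) := by
    refine isPreconnected_of_forall (1 : A) ?_
    intro a _
    obtain ⟨p, z, rfl⟩ := hcov a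
    refine ⟨Set.range fun z : Circle => p * ι z * p⁻¹, Set.subset_univ _, ⟨1, by simp⟩,
      ⟨z, rfl⟩, ?_⟩
    exact isPreconnected_range ((continuous_const.mul hι).mul continuous_const)
  exact { isPreconnected_univ := this, toNonempty := ⟨1⟩ }

/-- **Every compact group of rank at most one is an amalgamation base.**  If a compact Hausdorff
group `A` is covered by the conjugates of the image of a continuous homomorphism from the circle,
then `A` has the amalgamation property for compact groups.  This applies to the circle, to `SO(3)`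
and to `SU(2)` (the group of unit quaternions); the last two are connected and nonabelian. -/
theorem result :
    (∀ (A : Type) [Group A] [TopologicalSpace A] [IsTopologicalGroup A] [CompactSpace A]
      [T2Space A] (ι : Circle →* A), Continuous ι →
      (∀ a : A, ∃ (p : A) (z : Circle), a = p * ι z * p⁻¹) → Amalg A) ∧
    Amalg Circle ∧
    (IsTopologicalGroup SO3 ∧ CompactSpace SO3 ∧ T2Space SO3 ∧ ConnectedSpace SO3 ∧
      (∃ x y : SO3, x * y ≠ y * x) ∧ Amalg SO3) ∧
    (CompactSpace S3 ∧ T2Space S3 ∧ ConnectedSpace S3 ∧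
      IsManifold (𝓡 3) ∞ S3 ∧ LieGroup (𝓡 3) ∞ S3 ∧
      (∃ x y : S3, x * y ≠ y * x) ∧ Amalg S3) := by
  refine ⟨?_, ?_, ?_, ?_⟩
  · intro A _ _ _ _ _ ι hι hcov
    exact amalg_of_cover ι hι hcov
  · exact amalg_of_cover (MonoidHom.id Circle) continuous_id fun a => ⟨1, a, by simp⟩
  · exact ⟨inferInstance, inferInstance, inferInstance, connected_of_cover rot continuous_rot so3_cover,
      so3_nonabelian, amalg_of_cover rot continuous_rot so3_cover⟩
  · refine ⟨inferInstance, inferInstance, inferInstance, ?_, ?_, nonabelian,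
      amalg_of_cover iota continuous_iota exists_conj⟩
    · exact IsManifold.of_le (n := (⊤ : WithTop ℕ∞)) le_top
    · exact LieGroup.of_le (n := (⊤ : WithTop ℕ∞)) le_top

end Pool.Agent.Results.MP_f8bbe3_al.RankOne
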